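import Pool.Agent.THS.StmtsT

/-!
# THS, row INV (helper62)
-/

set_option autoImplicit false

namespace Pool.Agent.THS.H62

open Pool.Agent.THS

theorem inv (hRre : RreStatement) (hOrt : OrtStatement) : InvStatement := by
  intro g τ hτ a d x y
  have h1 : ∀ b : Fin g → ZMod 2, (sgn b (a + d) : ℂ) * (Vab τ a b x * Vab τ a b y) =
      ∑ c : Fin g → ZMod 2, ((sgn b (a + d) * sgn b (a + c) : ℤ) : ℂ) *
        (Thc τ (a + c) (fun i => x i + y i) * Thc τ c (fun i => x i - y i)) := by
    intro b
    rw [hRre g τ hτ a b x y, Finset.mul_sum]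
    refine Finset.sum_congr rfl fun c _ => ?_
    push_cast
    ring
  simp_rw [h1]
  rw [Finset.sum_comm]
  have h2 : ∀ c : Fin g → ZMod 2, ∑ b : Fin g → ZMod 2,
      ((sgn b (a + d) * sgn b (a + c) : ℤ) : ℂ) *
        (Thc τ (a + c) (fun i => x i + y i) * Thc τ c (fun i => x i - y i)) =
      if c = d then (2 : ℂ) ^ g * (Thc τ (a + c) (fun i => x i + y i) *
        Thc τ c (fun i => x i - y i)) else 0 := by
    intro c
    rw [← Finset.sum_mul, ← Int.cast_sum, hOrt g (a + d) (a + c)]
    by_cases hcd : c = d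
    · subst hcd
      rw [if_pos rfl, if_pos rfl]
      push_cast
      rfl
    · rw [if_neg hcd, if_neg (fun h => hcd (add_left_cancel h).symm)]
      push_cast
      rw [zero_mul]
  rw [Finset.sum_congr rfl fun c _ => h2 c, Finset.sum_ite_eq']
  simp

end Pool.Agent.THS.H62
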