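import Pool.Agent.THS.StmtsN

/-!
# THS, row PIG (helper62)
-/

set_option autoImplicit false

namespace Pool.Agent.THS.H62

open Pool.Agent.THS

theorem pig (hHxb : HxbStatement) (hNpp : NppStatement) : PigStatement := by
  intro g d H
  obtain ⟨B, hB⟩ := hNpp ((Fin g → ZMod 2) × (Fin g → ZMod 2)) d (4 ^ (g * d) * max H 1)
  refine ⟨B, ?_⟩
  intro K _ _ hd N α β T x hN hx
  have hmax : (0 : ℝ) ≤ max H 1 := le_trans zero_le_one (le_max_right _ _)
  refine hB K hd (fun k => x (k : ℤ)) (fun k => hN.x0 _) (fun k => ?_)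
  refine (hHxb K g N α β T x hN (k : ℤ)).trans ?_
  calc (4 : ℝ) ^ (g * Module.finrank ℚ K) * Height.mulHeight (x 0)
      ≤ 4 ^ (g * Module.finrank ℚ K) * max H 1 :=
        mul_le_mul_of_nonneg_left (hx.trans (le_max_left _ _)) (by positivity)
    _ ≤ 4 ^ (g * d) * max H 1 := by
        apply mul_le_mul_of_nonneg_right _ hmax
        exact pow_le_pow_right₀ (by norm_num) (Nat.mul_le_mul_left g hd)

end Pool.Agent.THS.H62
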