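import Pool.Agent.THS.StmtsG

/-!
# THS, row RQI (helper62)
-/

set_option autoImplicit false

namespace Pool.Agent.THS.H62

open Pool.Agent.THS

theorem rqi (hOrt : OrtStatement) : RqiStatement := by
  intro g K _ T a d i j
  unfold RQ
  have h1 : ∀ b : Fin g → ZMod 2, (sgn b (a + d) : K) *
      ∑ c : Fin g → ZMod 2, (sgn b (a + c) : K) * (T (i + j) (a + c) * T (i - j) c) =
      ∑ c : Fin g → ZMod 2, ((sgn b (a + d) * sgn b (a + c) : ℤ) : K) *
        (T (i + j) (a + c) * T (i - j) c) := by
    intro b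
    rw [Finset.mul_sum]
    refine Finset.sum_congr rfl fun c _ => ?_
    push_cast
    ring
  simp_rw [h1]
  rw [Finset.sum_comm]
  have h2 : ∀ c : Fin g → ZMod 2, ∑ b : Fin g → ZMod 2,
      ((sgn b (a + d) * sgn b (a + c) : ℤ) : K) * (T (i + j) (a + c) * T (i - j) c) =
      if c = d then (2 : K) ^ g * (T (i + j) (a + c) * T (i - j) c) else 0 := by
    intro c
    rw [← Finset.sum_mul, ← Int.cast_sum, hOrt g (a + d) (a + c)]
    by_cases hcd : c = d
    · subst hcd
      rw [if_pos rfl, if_pos rfl]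
      push_cast
      rfl
    · rw [if_neg hcd, if_neg (fun h => hcd (add_left_cancel h).symm)]
      push_cast
      rw [zero_mul]
  rw [Finset.sum_congr rfl fun c _ => h2 c, Finset.sum_ite_eq']
  simp

end Pool.Agent.THS.H62
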