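import Pool.Agent.THS.StmtsT

/-!
# THS, row RRE (helper62)
-/

set_option autoImplicit false

namespace Pool.Agent.THS.H62

open Pool.Agent.THS

theorem val_split {g : ℕ} (a c : Fin g → ZMod 2) (i : Fin g) :
    (a i).val + (c i).val = ((a + c) i).val + 2 * (((a i).val + (c i).val) / 2) := by
  rw [Pi.add_apply, ZMod.val_add]
  omega

theorem rre (hPrd : PrdStatement) (hTpe : TpeStatement) : RreStatement := by
  intro g τ hτ a b x y
  unfold Vab
  rw [hPrd g τ hτ]
  refine Finset.sum_congr rfl fun c _ => ?_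
  have h2τ : ((2 : ℂ) • τ).transpose = (2 : ℂ) • τ := by rw [Matrix.transpose_smul, hτ.1]
  have hB : ths ((2 : ℂ) • τ) (hv c) (fun i => 2 * x i + ((hv b i : ℝ) : ℂ) -
      (2 * y i + ((hv b i : ℝ) : ℂ))) = Thc τ c (fun i => x i - y i) := by
    unfold Thc
    congr 1
    funext i
    ring
  have hA : ths ((2 : ℂ) • τ) (fun i => hv a i + hv c i) (fun i => 2 * x i + ((hv b i : ℝ) : ℂ) +
      (2 * y i + ((hv b i : ℝ) : ℂ))) =
      (sgn b (a + c) : ℂ) * Thc τ (a + c) (fun i => x i + y i) := by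
    obtain ⟨p, hp⟩ : ∃ p : Fin g → ℤ, p = fun i => ((b i).val : ℤ) := ⟨_, rfl⟩
    obtain ⟨q, hq⟩ : ∃ q : Fin g → ℤ, q = fun i => ((((a i).val + (c i).val) / 2 : ℕ) : ℤ) :=
      ⟨_, rfl⟩
    have e1 : (fun i => 2 * x i + ((hv b i : ℝ) : ℂ) + (2 * y i + ((hv b i : ℝ) : ℂ))) =
        fun i => (fun i => 2 * (x i + y i)) i + (p i : ℂ) := by
      funext i
      rw [hp]
      unfold hv
      push_cast
      ring
    have e3 : ∀ i, hv a i + hv c i = hv (a + c) i + (q i : ℝ) := by
      intro i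
      have h1 := val_split a c i
      have h2 : ((a i).val : ℝ) + (c i).val =
          ((a + c) i).val + 2 * ((((a i).val + (c i).val) / 2 : ℕ) : ℝ) := by
        exact_mod_cast h1
      rw [hq]
      unfold hv
      rw [Int.cast_natCast]
      linarith
    have e2 : (fun i => hv a i + hv c i) = fun i => hv (a + c) i + (q i : ℝ) := funext e3
    have h3 := hTpe g _ h2τ (fun i => hv a i + hv c i) (fun i => 2 * (x i + y i)) p
    rw [e1, h3.2.1]
    have h4 := hTpe g _ h2τ (hv (a + c)) (fun i => 2 * (x i + y i)) q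
    rw [show ths ((2 : ℂ) • τ) (fun i => hv a i + hv c i) (fun i => 2 * (x i + y i)) =
      ths ((2 : ℂ) • τ) (hv (a + c)) (fun i => 2 * (x i + y i)) by rw [e2, h4.1]]
    unfold Thc
    congr 1
    -- the exponential factor
    have h6 : ∀ i, ((hv a i + hv c i : ℝ) : ℂ) * (p i : ℂ) =
        (((b i).val * ((a + c) i).val : ℕ) : ℂ) / 2 +
          (((((a i).val + (c i).val) / 2) * (b i).val : ℕ) : ℂ) := by
      intro i
      rw [e3 i, hp, hq]
      obtain ⟨u, hu⟩ : ∃ u : ℕ, u = ((a i).val + (c i).val) / 2 := ⟨_, rfl⟩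
      simp only [← hu]
      unfold hv
      push_cast
      ring
    have h5 : (2 * Real.pi * Complex.I * ∑ i, ((hv a i + hv c i : ℝ) : ℂ) * (p i : ℂ)) =
        ((∑ i, (b i).val * ((a + c) i).val : ℕ) : ℂ) * (Real.pi * Complex.I) +
        ((∑ i, (((a i).val + (c i).val) / 2) * (b i).val : ℕ) : ℂ) *
          (2 * Real.pi * Complex.I) := by
      rw [Nat.cast_sum, Nat.cast_sum, Finset.mul_sum, Finset.sum_mul, Finset.sum_mul,
        ← Finset.sum_add_distrib]
      refine Finset.sum_congr rfl fun i _ => ?_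
      rw [h6 i]
      ring
    rw [h5, Complex.exp_add, Complex.exp_nat_mul, Complex.exp_nat_mul, Complex.exp_pi_mul_I,
      Complex.exp_two_pi_mul_I, one_pow, mul_one]
    unfold sgn
    push_cast
    rfl
  rw [hA, hB]
  ring

end Pool.Agent.THS.H62
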